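import Mathlib

/-!
# Palette monotonicity in the domatic number game

If Alice wins the domatic number game with palette `{1, ..., k + 1}` (A-game or B-game), she wins
the same game with palette `{1, ..., k}`: she imagines a game with `k + 1` colours in which Bob
makes the same moves, follows her winning strategy there, and in the real game replaces the colour
`k + 1` by the colour `k`.
-/

set_option autoImplicit false

namespace Pool.Agent.Results.MP_e0e877_co.PaletteMonotone

variable {V : Type*} [DecidableEq V]

/-- A position of the game with a palette of `k` colours: the vertices coloured so far, with their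
colours (`none` means not yet coloured). -/
abbrev Position (V : Type*) (k : ℕ) := V → Option (Fin k)

/-- Every closed neighbourhood contains every colour of the palette, that is, every colour class is
a dominating set. -/
def AllDominating {k : ℕ} (H : SimpleGraph V) (p : Position V k) : Prop :=
  ∀ (c : Fin k) (x : V), ∃ y, (y = x ∨ H.Adj x y) ∧ p y = some c

/-- `AliceWinsFrom H b p`: Alice has a winning strategy from the position `p`, where it is Alice's
turn if `b = true` and Bob's turn if `b = false`. A move picks an uncoloured vertex and gives it a
colour of the palette; when all vertices are coloured, Alice has won if every colour class is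
dominating. -/
inductive AliceWinsFrom {k : ℕ} (H : SimpleGraph V) : Bool → Position V k → Prop
  | finished (b : Bool) (p : Position V k) (hfull : ∀ v, p v ≠ none) (h : AllDominating H p) :
      AliceWinsFrom H b p
  | alice (p : Position V k) (v : V) (c : Fin k) (hv : p v = none)
      (h : AliceWinsFrom H false (Function.update p v (some c))) : AliceWinsFrom H true p
  | bob (p : Position V k) (hopen : ∃ v, p v = none)
      (h : ∀ (v : V) (c : Fin k), p v = none →
        AliceWinsFrom H true (Function.update p v (some c))) : AliceWinsFrom H false p

/-- Alice has a winning strategy in the domatic number game on `H` with a palette of `k` colours.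
`first = true`: Alice moves first (A-game); `first = false`: Bob moves first (B-game). -/
def AliceWins (H : SimpleGraph V) (first : Bool) (k : ℕ) : Prop :=
  AliceWinsFrom H first (fun _ => none : Position V k)

/-- The game domatic number (`first = true`) and the delayed game domatic number
(`first = false`): the largest `k ≥ 1` for which Alice wins with palette `k`. -/
noncomputable def gameDomaticNumber (H : SimpleGraph V) (first : Bool) : ℕ :=
  sSup {k : ℕ | 1 ≤ k ∧ AliceWins H first k}

/-- replace the colour `k + 1` by the colour `k` -/
def collapse {k : ℕ} (hk : 1 ≤ k) (c : Fin (k + 1)) : Fin k :=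
  ⟨min c.val (k - 1), by omega⟩

lemma collapse_castSucc {k : ℕ} (hk : 1 ≤ k) (c : Fin k) : collapse hk c.castSucc = c := by
  apply Fin.ext
  simp only [collapse, Fin.val_castSucc]
  omega

/-- the real position belonging to an imagined one -/
def real {k : ℕ} (hk : 1 ≤ k) (q : Position V (k + 1)) : Position V k :=
  fun v => (q v).map (collapse hk)

lemma real_update {k : ℕ} (hk : 1 ≤ k) (q : Position V (k + 1)) (v : V) (c : Fin (k + 1)) :
    real hk (Function.update q v (some c)) =
      Function.update (real hk q) v (some (collapse hk c)) := by
  funext w
  by_cases h : w = v
  · subst h; simp [real]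
  · simp [real, Function.update_of_ne h]

lemma simulate {k : ℕ} (hk : 1 ≤ k) (H : SimpleGraph V) (b : Bool) (q : Position V (k + 1))
    (h : AliceWinsFrom H b q) : AliceWinsFrom H b (real hk q) := by
  induction h with
  | finished b q hfull h =>
    refine .finished b _ (fun v => ?_) (fun c x => ?_)
    · simpa [real] using hfull v
    · obtain ⟨y, hy, hc⟩ := h c.castSucc x
      exact ⟨y, hy, by simp [real, hc, collapse_castSucc]⟩
  | alice q v c hv _ ih =>
    refine .alice _ v (collapse hk c) (by simp [real, hv]) ?_
    rw [← real_update]
    exact ih
  | bob q hopen _ ih =>
    obtain ⟨v, hv⟩ := hopen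
    refine .bob _ ⟨v, by simp [real, hv]⟩ (fun w c hw => ?_)
    have hw' : q w = none := by simpa [real] using hw
    have := ih w c.castSucc hw'
    rwa [real_update, collapse_castSucc] at this

lemma exists_final {k : ℕ} (hk : 1 ≤ k) (H : SimpleGraph V) (b : Bool) (p : Position V k)
    (h : AliceWinsFrom H b p) : ∃ q : Position V k, AllDominating H q := by
  induction h with
  | finished b q _ h => exact ⟨q, h⟩
  | alice _ _ _ _ _ ih => exact ih
  | bob q hopen _ ih =>
    obtain ⟨v, hv⟩ := hopen
    exact ih v ⟨0, hk⟩ hv

lemma le_card [Fintype V] [Nonempty V] {k : ℕ} (hk : 1 ≤ k) (H : SimpleGraph V) (b : Bool)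
    (h : AliceWins H b k) : k ≤ Fintype.card V := by
  obtain ⟨q, hq⟩ := exists_final hk H b _ h
  have x : V := Classical.arbitrary V
  choose f hf using fun c : Fin k => hq c x
  have hinj : Function.Injective f := by
    intro c d hcd
    have h1 := (hf c).2
    have h2 := (hf d).2
    rw [hcd, h2] at h1
    exact (Option.some_injective _ h1).symm
  simpa using Fintype.card_le_of_injective f hinj

lemma wins_one [Fintype V] (H : SimpleGraph V) :
    ∀ (n : ℕ) (b : Bool) (p : Position V 1),
      (Finset.univ.filter (fun v => p v = none)).card = n → AliceWinsFrom H b p := by
  intro n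
  induction n with
  | zero =>
    intro b p hp
    have hfull : ∀ v, p v ≠ none := by
      intro v hv
      have : v ∈ Finset.univ.filter (fun v => p v = none) := by simp [hv]
      rw [Finset.card_eq_zero] at hp
      rw [hp] at this
      simp at this
    refine .finished b p hfull (fun c x => ⟨x, Or.inl rfl, ?_⟩)
    obtain ⟨d, hd⟩ := Option.ne_none_iff_exists'.mp (hfull x)
    rw [hd, Subsingleton.elim d c]
  | succ n ih =>
    intro b p hp
    have key : ∀ v c, p v = none →
        (Finset.univ.filter (fun w => Function.update p v (some c) w = none)).card = n := by
      intro v c hv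
      have : Finset.univ.filter (fun w => Function.update p v (some c) w = none) =
          (Finset.univ.filter (fun w => p w = none)).erase v := by
        ext w
        by_cases h : w = v
        · subst h; simp
        · simp [h]
      rw [this, Finset.card_erase_of_mem (by simp [hv]), hp]
      rfl
    have hne : (Finset.univ.filter (fun v => p v = none)).Nonempty := by
      rw [← Finset.card_pos, hp]; omega
    obtain ⟨v, hv⟩ := hne
    have hv' : p v = none := by simpa using hv
    cases b with
    | true => exact .alice p v 0 hv' (ih _ _ (key v 0 hv'))
    | false => exact .bob p ⟨v, hv'⟩ (fun w c hw => ih _ _ (key w c hw))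

/-- **Palette monotonicity.** For every finite graph `H`, both for the A-game (`first = true`) and
for the B-game (`first = false`): if Alice wins with the palette of `k + 1` colours, `k ≥ 1`, then
she wins with the palette of `k` colours. Hence, if `H` has a vertex, Alice wins with the palette
of `k ≥ 1` colours exactly when `k` is at most the (delayed) game domatic number of `H`. -/
theorem result {V : Type*} [DecidableEq V] [Fintype V] (H : SimpleGraph V) (first : Bool) :
    (∀ k : ℕ, 1 ≤ k → AliceWins H first (k + 1) → AliceWins H first k) ∧
    (Nonempty V → ∀ k : ℕ, 1 ≤ k → (AliceWins H first k ↔ k ≤ gameDomaticNumber H first)) := by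
  have hmono : ∀ k : ℕ, 1 ≤ k → AliceWins H first (k + 1) → AliceWins H first k := by
    intro k hk h
    exact simulate hk H first _ h
  refine ⟨hmono, fun hV k hk => ?_⟩
  have hbdd : BddAbove {k : ℕ | 1 ≤ k ∧ AliceWins H first k} :=
    ⟨Fintype.card V, fun k hk => le_card hk.1 H first hk.2⟩
  constructor
  · intro h
    exact le_csSup hbdd ⟨hk, h⟩
  · intro h
    have hne : {k : ℕ | 1 ≤ k ∧ AliceWins H first k}.Nonempty :=
      ⟨1, le_refl 1, wins_one H _ first _ rfl⟩
    have hmem := Nat.sSup_mem hne hbdd
    have hdown : ∀ m, AliceWins H first (k + m) → AliceWins H first k := by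
      intro m
      induction m with
      | zero => exact id
      | succ m ih => exact fun h => ih (hmono (k + m) (by omega) h)
    obtain ⟨m, hm⟩ := Nat.exists_eq_add_of_le h
    apply hdown m
    rw [← hm]
    exact hmem.2

end Pool.Agent.Results.MP_e0e877_co.PaletteMonotone
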